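import Mathlib
import Pool.Agent.Helper11_PGL.StmtB

/-!
# BBA: bubbling, existence of the valuation
-/

open PGH Polynomial

universe u v w

namespace PGL
namespace H69

open scoped nonZeroDivisors

section

variable {k Ω : Type u} [Field k] [Field Ω] [Algebra k Ω] {V : ValuationSubring Ω}

/-- power series with coefficients in `V` -/
theorem mem_range_iff (w : PowerSeries Ω) :
    w ∈ (algebraMap (PowerSeries V) (PowerSeries Ω)).range ↔ ∀ j, PowerSeries.coeff j w ∈ V := by
  constructor
  · rintro ⟨a, rfl⟩ j
    have : PowerSeries.coeff j (algebraMap (PowerSeries V) (PowerSeries Ω) a) =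
        ((PowerSeries.coeff j a : V) : Ω) := PowerSeries.coeff_map (algebraMap V Ω) j a
    rw [this]
    exact (PowerSeries.coeff j a : V).2
  · intro h
    refine ⟨PowerSeries.mk fun j => ⟨PowerSeries.coeff j w, h j⟩, ?_⟩
    ext j
    have : PowerSeries.coeff j (algebraMap (PowerSeries V) (PowerSeries Ω)
        (PowerSeries.mk fun j => (⟨PowerSeries.coeff j w, h j⟩ : V))) =
        ((PowerSeries.coeff j (PowerSeries.mk fun j => (⟨PowerSeries.coeff j w, h j⟩ : V)) : V) : Ω) :=
      PowerSeries.coeff_map (algebraMap V Ω) j _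
    rw [this, PowerSeries.coeff_mk]

theorem algebraMap_injective :
    Function.Injective (algebraMap (PowerSeries V) (PowerSeries Ω)) := by
  intro a b h
  ext j
  have h1 : PowerSeries.coeff j (algebraMap (PowerSeries V) (PowerSeries Ω) a) =
      PowerSeries.coeff j (algebraMap (PowerSeries V) (PowerSeries Ω) b) := by rw [h]
  have h2 : ∀ c : PowerSeries V, PowerSeries.coeff j (algebraMap (PowerSeries V) (PowerSeries Ω) c) =
        ((PowerSeries.coeff j c : V) : Ω) := fun c => PowerSeries.coeff_map (algebraMap V Ω) j c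
  rw [h2, h2] at h1
  exact Subtype.ext_iff.mp (Subtype.ext h1)

/-- almost integral power series have coefficients in `V` -/
theorem almost (harch : ∀ x ∈ V.nonunits, ∀ y : Ω, y ≠ 0 → ∃ n : ℕ, x ^ n * y⁻¹ ∈ V)
    (z : PowerSeries Ω) (hz : IsAlmostIntegral (PowerSeries V) z) (j : ℕ) :
    PowerSeries.coeff j z ∈ V := by
  classical
  induction j using Nat.strong_induction_on with
  | h j ih =>
    by_contra hj
    -- subtract the truncation
    obtain ⟨t, ht⟩ : ∃ t : PowerSeries V, algebraMap (PowerSeries V) (PowerSeries Ω) t =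
        ((PowerSeries.trunc j z : Polynomial Ω) : PowerSeries Ω) := by
      have := (mem_range_iff (V := V) ((PowerSeries.trunc j z : Polynomial Ω) : PowerSeries Ω)).mpr
        (fun i => by
          rw [Polynomial.coeff_coe, PowerSeries.coeff_trunc]
          split_ifs with h
          · exact ih i h
          · exact V.zero_mem)
      exact this
    have hz' : IsAlmostIntegral (PowerSeries V)
        (z - ((PowerSeries.trunc j z : Polynomial Ω) : PowerSeries Ω)) := by
      have h1 : z ∈ completeIntegralClosure (PowerSeries V) (PowerSeries Ω) := hz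
      have h2 : ((PowerSeries.trunc j z : Polynomial Ω) : PowerSeries Ω) ∈
          completeIntegralClosure (PowerSeries V) (PowerSeries Ω) := by
        rw [← ht]
        exact Subalgebra.algebraMap_mem _ t
      exact Subalgebra.sub_mem _ h1 h2
    obtain ⟨z', hz'X⟩ : (PowerSeries.X : PowerSeries Ω) ^ j ∣
        z - ((PowerSeries.trunc j z : Polynomial Ω) : PowerSeries Ω) := by
      rw [PowerSeries.X_pow_dvd_iff]
      intro i hi
      rw [map_sub, Polynomial.coeff_coe, PowerSeries.coeff_trunc, if_pos hi, sub_self]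
    have hz'0 : PowerSeries.constantCoeff z' = PowerSeries.coeff j z := by
      have h1 : PowerSeries.coeff j (z - ((PowerSeries.trunc j z : Polynomial Ω) : PowerSeries Ω)) =
          PowerSeries.coeff j z := by
        rw [map_sub, Polynomial.coeff_coe, PowerSeries.coeff_trunc, if_neg (lt_irrefl j), sub_zero]
      rw [← h1, hz'X]
      have h2 := PowerSeries.coeff_X_pow_mul z' j 0
      rw [zero_add] at h2
      rw [h2, PowerSeries.coeff_zero_eq_constantCoeff]
    obtain ⟨s, hs, hsz⟩ := hz'
    have hs0 : algebraMap (PowerSeries V) (PowerSeries Ω) s ≠ 0 := by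
      intro h
      exact nonZeroDivisors.ne_zero hs (algebraMap_injective (by rw [h, map_zero]))
    set S := algebraMap (PowerSeries V) (PowerSeries Ω) s with hS
    obtain ⟨S', hS'⟩ := PowerSeries.X_pow_order_dvd (φ := S)
    set l := S.order.toNat with hl
    have hS'0 : PowerSeries.constantCoeff S' = PowerSeries.coeff l S := by
      have h2 := PowerSeries.coeff_X_pow_mul S' l 0
      rw [zero_add, ← hS'] at h2
      rw [h2, PowerSeries.coeff_zero_eq_constantCoeff]
    have hc0 : PowerSeries.constantCoeff S' ≠ 0 := by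
      rw [hS'0]; exact PowerSeries.coeff_order hs0
    have hall : ∀ n : ℕ, PowerSeries.constantCoeff S' * (PowerSeries.coeff j z) ^ n ∈ V := by
      intro n
      have h1 : ∀ i, PowerSeries.coeff i (S * (z - ((PowerSeries.trunc j z : Polynomial Ω) :
          PowerSeries Ω)) ^ n) ∈ V := by
        rw [← mem_range_iff]
        have := hsz n
        rwa [Algebra.smul_def] at this
      have h2 : S * (z - ((PowerSeries.trunc j z : Polynomial Ω) : PowerSeries Ω)) ^ n =
          PowerSeries.X ^ (l + j * n) * (S' * z' ^ n) := by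
        rw [hz'X]
        conv_lhs => rw [hS']
        rw [mul_pow, ← pow_mul, pow_add]
        ring
      have h3 := h1 (l + j * n)
      rw [h2] at h3
      have h4 := PowerSeries.coeff_X_pow_mul (S' * z' ^ n) (l + j * n) 0
      rw [zero_add] at h4
      rw [h4, PowerSeries.coeff_zero_eq_constantCoeff, map_mul, map_pow, hz'0] at h3
      exact h3
    set c := PowerSeries.coeff j z with hc
    have hcinv : c⁻¹ ∈ V.nonunits := by
      rw [ValuationSubring.inv_mem_nonunits_iff]
      exact Or.inr hj
    have hcne : c ≠ 0 := fun h => hj (h ▸ V.zero_mem)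
    obtain ⟨n, hn⟩ := harch c⁻¹ hcinv _ hc0
    have h5 := V.mul_mem _ _ (hall (n + 1)) hn
    refine hj ?_
    have h6 : PowerSeries.constantCoeff S' * c ^ (n + 1) * (c⁻¹ ^ n *
        (PowerSeries.constantCoeff S')⁻¹) = c := by
      have h7 : PowerSeries.constantCoeff S' * c ^ (n + 1) * (c⁻¹ ^ n *
          (PowerSeries.constantCoeff S')⁻¹) = (PowerSeries.constantCoeff S' *
          (PowerSeries.constantCoeff S')⁻¹) * (c * (c * c⁻¹) ^ n) := by ring
      rw [h7, mul_inv_cancel₀ hc0, mul_inv_cancel₀ hcne, one_pow, mul_one, one_mul]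
    rwa [h6] at h5

end

/-- BBA -/
theorem bba (hZ : ZmtStmt.{u}) : BBAStmt.{u} := by
  intro k Ω 𝓕 _ _ _ _ _ _ V ι _ g x hV hinj hconst hrat hout
  classical
  haveI := Fintype.ofFinite ι
  -- the ring generated by the `g i`
  let A := PowerSeries V
  let S : Subalgebra A (PowerSeries Ω) := Algebra.adjoin A (Set.range g)
  have hgS : ∀ i, g i ∈ S := fun i => Algebra.subset_adjoin ⟨i, rfl⟩
  have hAS : Function.Injective (algebraMap A S) := by
    intro a b h
    exact algebraMap_injective (congrArg (algebraMap S (PowerSeries Ω)) h)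
  have hSF : Function.Injective (algebraMap S 𝓕) := by
    intro a b h
    exact Subtype.ext (hinj h)
  -- constants
  have hcV : ∀ y : S, PowerSeries.constantCoeff (y : PowerSeries Ω) ∈ V := by
    rintro ⟨y, hy⟩
    change PowerSeries.constantCoeff y ∈ V
    induction hy using Algebra.adjoin_induction with
    | mem y hy =>
      obtain ⟨i, rfl⟩ := hy
      rw [hconst i]; exact hV.const _
    | algebraMap a =>
      rw [← PowerSeries.coeff_zero_eq_constantCoeff_apply]
      exact (mem_range_iff (V := V) _).mp ⟨a, rfl⟩ 0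
    | add y z _ _ hy hz => rw [map_add]; exact V.add_mem _ _ hy hz
    | mul y z _ _ hy hz => rw [map_mul]; exact V.mul_mem _ _ hy hz
  let χ : S →+* V := ((PowerSeries.constantCoeff (R := Ω)).comp
    (algebraMap S (PowerSeries Ω))).codRestrict V.toSubring hcV
  have hχ : ∀ y : S, ((χ y : V) : Ω) = PowerSeries.constantCoeff (y : PowerSeries Ω) :=
    fun y => rfl
  have hC : ∀ v : V, ∃ a : A, algebraMap A S a =
      ⟨PowerSeries.C (v : Ω), by
        obtain ⟨a, ha⟩ := (mem_range_iff (V := V) (PowerSeries.C (v : Ω))).mpr (fun j => by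
          rw [PowerSeries.coeff_C]
          split_ifs
          · exact v.2
          · exact V.zero_mem)
        rw [← ha]; exact Subalgebra.algebraMap_mem _ a⟩ := by
    intro v
    obtain ⟨a, ha⟩ := (mem_range_iff (V := V) (PowerSeries.C (v : Ω))).mpr (fun j => by
      rw [PowerSeries.coeff_C]
      split_ifs
      · exact v.2
      · exact V.zero_mem)
    exact ⟨a, Subtype.ext ha⟩
  have hχsurj : Function.Surjective χ := by
    intro v
    obtain ⟨a, ha⟩ := hC v
    refine ⟨algebraMap A S a, Subtype.ext ?_⟩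
    rw [hχ, ha]
    exact PowerSeries.constantCoeff_C _
  let n : Ideal S := (IsLocalRing.maximalIdeal V).comap χ
  haveI hn : n.IsMaximal := Ideal.comap_isMaximal_of_surjective χ hχsurj
  have hnmem : ∀ y : S, y ∈ n ↔ PowerSeries.constantCoeff (y : PowerSeries Ω) ∈ V.nonunits := by
    intro y
    rw [← hχ y, V.coe_mem_nonunits_iff]
    exact Iff.rfl
  -- maximal ideal of `A`
  have hAmax : ∀ a : A, a ∈ IsLocalRing.maximalIdeal A ↔
      PowerSeries.constantCoeff (algebraMap A (PowerSeries Ω) a) ∈ V.nonunits := by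
    intro a
    have h1 : PowerSeries.constantCoeff (algebraMap A (PowerSeries Ω) a) =
        ((PowerSeries.constantCoeff a : V) : Ω) := by
      have := PowerSeries.coeff_map (algebraMap V Ω) 0 a
      rw [PowerSeries.coeff_zero_eq_constantCoeff_apply,
        PowerSeries.coeff_zero_eq_constantCoeff_apply] at this
      exact this
    rw [h1, V.coe_mem_nonunits_iff, IsLocalRing.mem_maximalIdeal, IsLocalRing.mem_maximalIdeal,
      mem_nonunits_iff, mem_nonunits_iff, PowerSeries.isUnit_iff_constantCoeff]
  -- generators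
  let s : Finset S := Finset.univ.image fun i : ι => (⟨g i, hgS i⟩ : S)
  have hs : Algebra.adjoin A (s : Set S) = ⊤ := by
    have h1 := Algebra.adjoin_adjoin_coe_preimage (R := A) (s := Set.range g)
    have h2 : (s : Set S) = ((↑) : S → PowerSeries Ω) ⁻¹' (Set.range g) := by
      ext y
      simp only [s, Finset.coe_image, Finset.coe_univ, Set.image_univ, Set.mem_range,
        Set.mem_preimage]
      constructor
      · rintro ⟨i, rfl⟩; exact ⟨i, rfl⟩
      · rintro ⟨i, hi⟩; exact ⟨i, Subtype.ext hi⟩
    rw [h2]; exact h1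
  -- denominators
  have hden : ∀ y ∈ S, ∃ t ∈ A⁰, t • y ∈ (algebraMap A (PowerSeries Ω)).range := by
    intro y hy
    induction hy using Algebra.adjoin_induction with
    | mem y hy =>
      obtain ⟨i, rfl⟩ := hy
      obtain ⟨α, β, hα, hβ, hβ0, hβα⟩ := hrat i
      obtain ⟨b, hb⟩ := (mem_range_iff (V := V) β).mpr hβ
      refine ⟨b, mem_nonZeroDivisors_of_ne_zero ?_, ?_⟩
      · rintro rfl
        exact hβ0 (by rw [← hb, map_zero])
      · rw [Algebra.smul_def]
        change algebraMap (PowerSeries V) (PowerSeries Ω) b * g i ∈ _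
        rw [hb, hβα]
        exact (mem_range_iff (V := V) α).mpr hα
    | algebraMap a =>
      exact ⟨1, one_mem _, by rw [one_smul]; exact ⟨a, rfl⟩⟩
    | add y z _ _ hy hz =>
      obtain ⟨t, ht, ht'⟩ := hy
      obtain ⟨r, hr, hr'⟩ := hz
      refine ⟨t * r, mul_mem ht hr, ?_⟩
      have : (t * r) • (y + z) = algebraMap A (PowerSeries Ω) r * (t • y) +
          algebraMap A (PowerSeries Ω) t * (r • z) := by
        simp only [Algebra.smul_def, map_mul]
        ring
      rw [this]
      exact add_mem (mul_mem ⟨r, rfl⟩ ht') (mul_mem ⟨t, rfl⟩ hr')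
    | mul y z _ _ hy hz =>
      obtain ⟨t, ht, ht'⟩ := hy
      obtain ⟨r, hr, hr'⟩ := hz
      refine ⟨t * r, mul_mem ht hr, ?_⟩
      have : (t * r) • (y * z) = (t • y) * (r • z) := by
        simp only [Algebra.smul_def, map_mul]
        ring
      rw [this]
      exact mul_mem ht' hr'
  have hint : ∀ b : S, IsIntegral A b → ∃ a : A, algebraMap A S a = b := by
    intro b hb
    have h1 : IsIntegral A (b : PowerSeries Ω) := hb.map S.val
    have h2 := h1.isAlmostIntegral_of_exists_smul_mem_range (hden b b.2)
    obtain ⟨a, ha⟩ := (mem_range_iff (V := V) (b : PowerSeries Ω)).mpr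
      (fun j => almost hV.arch _ h2 j)
    exact ⟨a, Subtype.ext ha⟩
  obtain ⟨U, hU1, hU2, hU3, b, hb, hU4⟩ := hZ A S 𝓕 hAS hSF s hs hint
    (by
      obtain ⟨i, j, hij⟩ := hout
      refine ⟨⟨g i, hgS i⟩, Finset.mem_image.mpr ⟨i, Finset.mem_univ _, rfl⟩, fun a ha => hij ?_⟩
      have : algebraMap A (PowerSeries Ω) a = g i := congrArg (fun y : S => (y : PowerSeries Ω)) ha
      rw [← this]
      exact (mem_range_iff (V := V) _).mp ⟨a, rfl⟩ j) n
    (fun a ha => (hnmem _).mpr ((hAmax a).mp ha))
    (fun y => by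
      obtain ⟨a, ha⟩ := hC (χ y)
      refine ⟨a, (hnmem _).mpr ?_⟩
      have : PowerSeries.constantCoeff ((y - algebraMap A S a : S) : PowerSeries Ω) = 0 := by
        rw [ha]
        change PowerSeries.constantCoeff ((y : PowerSeries Ω) - PowerSeries.C ((χ y : V) : Ω)) = 0
        rw [map_sub, PowerSeries.constantCoeff_C, hχ, sub_self]
      rw [this]
      exact V.nonunits.zero_mem)
  have hkS : ∀ c : k, ∃ a : A, algebraMap A (PowerSeries Ω) a =
      PowerSeries.C (algebraMap k Ω c) := by
    intro c
    obtain ⟨a, ha⟩ := hC ⟨algebraMap k Ω c, hV.const c⟩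
    exact ⟨a, congrArg (fun y : S => (y : PowerSeries Ω)) ha⟩
  refine ⟨U, ⟨?_, ?_⟩, fun i => hU1 ⟨g i, hgS i⟩, ?_, ?_⟩
  · intro w hw
    obtain ⟨a, ha⟩ := (mem_range_iff (V := V) w).mpr hw
    have h1 := hU1 (algebraMap A S a)
    have h2 : algebraMap S 𝓕 (algebraMap A S a) = algebraMap (PowerSeries Ω) 𝓕 w := by
      rw [← ha]; rfl
    rwa [h2] at h1
  · intro w hw hw0
    obtain ⟨a, ha⟩ := (mem_range_iff (V := V) w).mpr hw
    have h1 := hU2 a ((hAmax a).mpr (by
      change PowerSeries.constantCoeff (algebraMap (PowerSeries V) (PowerSeries Ω) a) ∈ _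
      rw [ha]; exact hw0))
    have h2 : algebraMap S 𝓕 (algebraMap A S a) = algebraMap (PowerSeries Ω) 𝓕 w := by
      rw [← ha]; rfl
    rwa [h2] at h1
  · obtain ⟨i, -, rfl⟩ := Finset.mem_image.mp hb
    refine ⟨i, fun c => ?_⟩
    obtain ⟨a, ha⟩ := hkS c
    have h1 := hU4 a
    have h2 : algebraMap S 𝓕 ((⟨g i, hgS i⟩ : S) - algebraMap A S a) =
        algebraMap (PowerSeries Ω) 𝓕 (g i - PowerSeries.C (algebraMap k Ω c)) := by
      rw [← ha]; rfl
    rwa [h2] at h1
  · intro p hp
    have hmem : ∀ p : MvPolynomial ι k, MvPolynomial.aeval g p ∈ S := by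
      intro p
      induction p using MvPolynomial.induction_on with
      | C a =>
        obtain ⟨b, hb⟩ := hkS a
        have : MvPolynomial.aeval g (MvPolynomial.C a : MvPolynomial ι k) =
            PowerSeries.C (algebraMap k Ω a) := by
          rw [MvPolynomial.aeval_C, PowerSeries.algebraMap_apply]
        rw [this, ← hb]
        exact Subalgebra.algebraMap_mem _ b
      | add p q hp hq => rw [map_add]; exact S.add_mem hp hq
      | mul_X p i hp => rw [map_mul, MvPolynomial.aeval_X]; exact S.mul_mem hp (hgS i)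
    have hval : ∀ p : MvPolynomial ι k, PowerSeries.constantCoeff (MvPolynomial.aeval g p) =
        algebraMap k Ω (MvPolynomial.eval x p) := by
      intro p
      induction p using MvPolynomial.induction_on with
      | C a =>
        rw [MvPolynomial.aeval_C, PowerSeries.algebraMap_apply, PowerSeries.constantCoeff_C,
          MvPolynomial.eval_C]
      | add p q hp hq => rw [map_add, map_add, hp, hq, map_add, map_add]
      | mul_X p i hp =>
        rw [map_mul, map_mul, MvPolynomial.aeval_X, hp, hconst i, map_mul, map_mul,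
          MvPolynomial.eval_X]
    have h1 := hU3 ⟨MvPolynomial.aeval g p, hmem p⟩ (by
      rw [hnmem]
      change PowerSeries.constantCoeff (MvPolynomial.aeval g p) ∉ V.nonunits
      rw [hval p, ← inv_inv (algebraMap k Ω (MvPolynomial.eval x p)),
        ValuationSubring.inv_mem_nonunits_iff, not_or, not_not]
      refine ⟨inv_ne_zero ?_, ?_⟩
      · rw [Ne, map_eq_zero]
        exact hp
      · rw [← map_inv₀]
        exact hV.const _)
    exact h1

end H69
end PGL
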