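import Mathlib
import Pool.Agent.Helper11_PGL.StmtB

/-!
# ZMT: a consequence of Zariski's main theorem
-/

open PGH Polynomial

universe u v w

namespace PGL
namespace H69

/-- a valuation ring dominating the localisation at a prime -/
theorem exists_valuation_of_prime {B : Type u} {F : Type v} [CommRing B] [Field F] [Algebra B F]
    (hinj : Function.Injective (algebraMap B F)) (q : Ideal B) [q.IsPrime] :
    ∃ U : ValuationSubring F, (∀ b : B, algebraMap B F b ∈ U) ∧
      ∀ b : B, algebraMap B F b ∈ U.nonunits ↔ b ∈ q := by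
  have hun : ∀ y : q.primeCompl, IsUnit (algebraMap B F y) := by
    intro y
    refine isUnit_iff_ne_zero.mpr fun h => ?_
    have h0 : (y : B) = 0 := hinj (by rw [h, map_zero])
    exact y.2 (h0 ▸ q.zero_mem)
  let f : Localization.AtPrime q →+* F := IsLocalization.lift (M := q.primeCompl) hun
  have hf : ∀ b : B, f (algebraMap B (Localization.AtPrime q) b) = algebraMap B F b := fun b =>
    IsLocalization.lift_eq hun b
  obtain ⟨U, hU, hloc⟩ := IsLocalRing.exists_factor_valuationRing f
  refine ⟨U, fun b => ?_, fun b => ?_⟩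
  · rw [← hf b]; exact hU _
  · have hmem : algebraMap B F b ∈ U := by rw [← hf b]; exact hU _
    have h1 : IsUnit (algebraMap B (Localization.AtPrime q) b) ↔ b ∉ q := by
      rw [IsLocalization.AtPrime.isUnit_to_map_iff (Localization.AtPrime q) q b]
      rfl
    have h2 : IsUnit (f.codRestrict U.toSubring hU (algebraMap B (Localization.AtPrime q) b)) ↔
        IsUnit (algebraMap B (Localization.AtPrime q) b) :=
      ⟨fun h => hloc.map_nonunit _ h, fun h => h.map _⟩
    have h3 : algebraMap B F b ∈ U.nonunits ↔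
        ¬ IsUnit (f.codRestrict U.toSubring hU (algebraMap B (Localization.AtPrime q) b)) := by
      have h4 : algebraMap B F b = ((f.codRestrict U.toSubring hU
        (algebraMap B (Localization.AtPrime q) b) : U) : F) := (hf b).symm
      rw [h4]
      exact (U.coe_mem_nonunits_iff (a := f.codRestrict U.toSubring hU
        (algebraMap B (Localization.AtPrime q) b))).trans (IsLocalRing.mem_maximalIdeal _)
    rw [h3, h2, h1, not_not]

/-- if a maximal ideal is minimal in its fibre then it is isolated in the fibre -/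
theorem quasiFiniteAt_of_minimal {A B : Type u} [CommRing A] [IsLocalRing A] [CommRing B]
    [Algebra A B] [Algebra.FiniteType A B] (n : Ideal B) [n.IsMaximal]
    (hn : ∀ a ∈ IsLocalRing.maximalIdeal A, algebraMap A B a ∈ n)
    (hmin : ∀ q : Ideal B, q.IsPrime → (∀ a ∈ IsLocalRing.maximalIdeal A, algebraMap A B a ∈ q) →
      q ≤ n → q = n) : Algebra.QuasiFiniteAt A n := by
  classical
  set m := IsLocalRing.maximalIdeal A with hm
  set I := m.map (algebraMap A B) with hI
  have hprime : n.IsPrime := Ideal.IsMaximal.isPrime inferInstance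
  have hIle : ∀ q : Ideal B, (∀ a ∈ m, algebraMap A B a ∈ q) ↔ I ≤ q := by
    intro q
    rw [hI, Ideal.map_le_iff_le_comap]
    exact Iff.rfl
  have hfin : I.minimalPrimes.Finite := by
    letI : Field (A ⧸ m) := Ideal.Quotient.field m
    haveI : Algebra.FiniteType A (B ⧸ I) := inferInstance
    haveI : IsNoetherianRing (A ⧸ m) := inferInstance
    haveI : IsScalarTower A (A ⧸ m) (B ⧸ I) := inferInstance
    haveI : Algebra.FiniteType (A ⧸ m) (B ⧸ I) :=
      Algebra.FiniteType.of_restrictScalars_finiteType A (A ⧸ m) (B ⧸ I)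
    haveI : IsNoetherianRing (B ⧸ I) := Algebra.FiniteType.isNoetherianRing (A ⧸ m) (B ⧸ I)
    rw [Ideal.minimalPrimes_eq_comap]
    exact (minimalPrimes.finite_of_isNoetherianRing (B ⧸ I)).image _
  -- an element outside `n` in all other minimal primes
  have hex : ∃ f : B, f ∉ n ∧ ∀ p ∈ I.minimalPrimes, p ≠ n → f ∈ p := by
    by_contra hcon
    push Not at hcon
    have h1 : (hfin.toFinset.filter (fun p => p ≠ n)).inf id ≤ n := by
      intro f hf
      by_contra hfn
      obtain ⟨p, hp, hpn, hfp⟩ := hcon f hfn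
      exact hfp ((Finset.inf_le (f := id) (Finset.mem_filter.mpr
        ⟨hfin.mem_toFinset.mpr hp, hpn⟩)) hf)
    obtain ⟨p, hp, hple⟩ := (Ideal.IsPrime.inf_le' hprime).mp h1
    rw [Finset.mem_filter, hfin.mem_toFinset] at hp
    exact hp.2 (hmin p hp.1.1.1 ((hIle p).mpr hp.1.1.2) hple)
  obtain ⟨f, hfn, hf⟩ := hex
  have key : ∀ q : Ideal B, q.IsPrime → I ≤ q → f ∉ q → q = n := by
    intro q hq hIq hfq
    obtain ⟨p, hp, hpq⟩ := Ideal.exists_minimalPrimes_le hIq
    have hpn : p = n := by
      by_contra hne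
      exact hfq (hpq (hf p hp hne))
    rw [hpn] at hpq
    exact ((inferInstance : n.IsMaximal).eq_of_le hq.ne_top hpq).symm
  have hcomap : n.comap (algebraMap A B) = m := by
    have h1 : m ≤ n.comap (algebraMap A B) := fun a ha => hn a ha
    have h2 : (n.comap (algebraMap A B)) ≠ ⊤ := (Ideal.comap_isPrime _ _).ne_top
    exact ((IsLocalRing.maximalIdeal.isMaximal A).eq_of_le h2 h1).symm
  refine Algebra.QuasiFiniteAt.of_isOpen_singleton_fiber (R := A) (S := B) ⟨n, hprime⟩ ?_
  rw [isOpen_induced_iff]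
  refine ⟨(PrimeSpectrum.basicOpen f : Set (PrimeSpectrum B)), (PrimeSpectrum.basicOpen f).isOpen,
    ?_⟩
  ext ⟨q, hq⟩
  constructor
  · intro hfq0
    have hfq : f ∉ q.asIdeal := hfq0
    have h1 : PrimeSpectrum.comap (algebraMap A B) q =
        PrimeSpectrum.comap (algebraMap A B) ⟨n, hprime⟩ := hq
    have h2 : q.asIdeal.comap (algebraMap A B) = n.comap (algebraMap A B) :=
      congrArg PrimeSpectrum.asIdeal h1
    have h3 : I ≤ q.asIdeal := by
      rw [hI, Ideal.map_le_iff_le_comap, h2, hcomap]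
    exact Set.mem_singleton_iff.mpr (Subtype.ext (PrimeSpectrum.ext
      (key q.asIdeal q.isPrime h3 hfq)))
  · intro h
    have h1 : q = ⟨n, hprime⟩ := congrArg Subtype.val (Set.mem_singleton_iff.mp h)
    subst h1
    exact hfn

/-- ZMT -/
theorem zmt : ZmtStmt.{u} := by
  intro A B 𝓕 _ _ _ _ _ _ _ _ hAB hBF s hs hint hout n hnmax hm hres
  haveI : Algebra.FiniteType A B := ⟨⟨s, hs⟩⟩
  have hnprime : n.IsPrime := Ideal.IsMaximal.isPrime inferInstance
  -- a smaller prime in the fibre
  have hq : ∃ q : Ideal B, q.IsPrime ∧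
      (∀ a ∈ IsLocalRing.maximalIdeal A, algebraMap A B a ∈ q) ∧ q ≤ n ∧ q ≠ n := by
    by_contra hcon
    push Not at hcon
    haveI : Algebra.QuasiFiniteAt A n := quasiFiniteAt_of_minimal n (fun a ha => hm a ha)
      (fun q hq hqm hqn => hcon q hq hqm hqn)
    obtain ⟨r, hrn, hri, hr⟩ := Algebra.zariskisMainProperty_iff.mp
      (Algebra.ZariskisMainProperty.of_finiteType (R := A) (S := B) n)
    obtain ⟨a, ha⟩ := hint r hri
    have hau : IsUnit a := by
      by_contra hnu
      exact hrn (ha ▸ hm a ((IsLocalRing.mem_maximalIdeal a).mpr hnu))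
    obtain ⟨b, hb, hbout⟩ := hout
    obtain ⟨k, hk⟩ := hr b
    obtain ⟨c, hc⟩ := hint _ hk
    obtain ⟨u, hu⟩ := hau
    refine hbout ((↑u⁻¹ : A) ^ k * c) ?_
    rw [map_mul, hc, ← ha, ← mul_assoc, map_pow, ← mul_pow, ← map_mul, ← hu, Units.inv_mul,
      map_one, one_pow, one_mul]
  obtain ⟨q, hqprime, hqm, hqn, hqne⟩ := hq
  obtain ⟨U, hU, hUq⟩ := exists_valuation_of_prime hBF q
  refine ⟨U, hU, fun a ha => (hUq _).mpr (hqm a ha), fun b hb h => hb (hqn ((hUq b).mp h)), ?_⟩
  by_contra hcon
  push Not at hcon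
  have hall : ∀ b : B, ∃ a : A, b - algebraMap A B a ∈ q := by
    intro b
    have hb : b ∈ Algebra.adjoin A (s : Set B) := by rw [hs]; trivial
    induction hb using Algebra.adjoin_induction with
    | mem x hx =>
      obtain ⟨a, ha⟩ := hcon x hx
      exact ⟨a, (hUq _).mp ha⟩
    | algebraMap a => exact ⟨a, by rw [sub_self]; exact q.zero_mem⟩
    | add x y _ _ hx hy =>
      obtain ⟨a, ha⟩ := hx
      obtain ⟨c, hc⟩ := hy
      refine ⟨a + c, ?_⟩
      rw [map_add]
      have : x + y - (algebraMap A B a + algebraMap A B c) =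
        (x - algebraMap A B a) + (y - algebraMap A B c) := by ring
      rw [this]
      exact q.add_mem ha hc
    | mul x y _ _ hx hy =>
      obtain ⟨a, ha⟩ := hx
      obtain ⟨c, hc⟩ := hy
      refine ⟨a * c, ?_⟩
      rw [map_mul]
      have : x * y - (algebraMap A B a * algebraMap A B c) =
        y * (x - algebraMap A B a) + algebraMap A B a * (y - algebraMap A B c) := by ring
      rw [this]
      exact q.add_mem (q.mul_mem_left _ ha) (q.mul_mem_left _ hc)
  refine hqne (le_antisymm hqn fun x hx => ?_)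
  obtain ⟨a, ha⟩ := hall x
  have hain : algebraMap A B a ∈ n := by
    have : algebraMap A B a = x - (x - algebraMap A B a) := by ring
    rw [this]
    exact n.sub_mem hx (hqn ha)
  have ham : a ∈ IsLocalRing.maximalIdeal A := by
    rw [IsLocalRing.mem_maximalIdeal]
    intro hau
    exact hnprime.ne_top (Ideal.eq_top_of_isUnit_mem _ hain (hau.map (algebraMap A B)))
  have : x = (x - algebraMap A B a) + algebraMap A B a := by ring
  rw [this]
  exact q.add_mem ha (hqm a ham)

end H69
end PGL
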